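import Pool.Agent.PFJ.Stmts

/-!
# PFJ squad (MP_e54c4c_gt), row PRB: adapted simplices through a given point
-/

set_option autoImplicit false

open Matrix Filter Topology

namespace Pool.Agent.PFJ.H25

open Pool.Agent.PFS Pool.Agent.PFJ

variable {n : ℕ}

/-- maximal subtraction -/
theorem exists_tau {C : Set (V n)} (h : PCone C) {p w : V n} (hw0 : w ≠ 0)
    (hw : w ∈ closure C) (hM : ∃ M : ℝ, 0 < M ∧ M • p - w ∈ closure C) (hp : p ∈ closure C) :
    ∃ τ : ℝ, 0 < τ ∧ p - τ • w ∈ closure C ∧ ∀ t : ℝ, p - t • w ∈ closure C → t ≤ τ := by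
  obtain ⟨B, hB, hBn⟩ := h.normal
  let S : Set ℝ := {t : ℝ | 0 ≤ t ∧ p - t • w ∈ closure C}
  have hScl : IsClosed S := by
    have h1 : IsClosed {t : ℝ | 0 ≤ t} := isClosed_le continuous_const continuous_id
    have h2 : IsClosed {t : ℝ | p - t • w ∈ closure C} :=
      isClosed_closure.preimage (by fun_prop)
    exact h1.inter h2
  have hwp : 0 < ‖w‖ := norm_pos_iff.mpr hw0
  have hSb : S ⊆ Set.Icc 0 (B * ‖p‖ / ‖w‖) := by
    rintro t ⟨ht0, ht⟩
    refine ⟨ht0, ?_⟩
    have h1 := hBn (t • w) p (h.cl_smul hw ht0) ht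
    rw [norm_smul, Real.norm_of_nonneg ht0] at h1
    rw [le_div_iff₀ hwp]
    exact h1
  have hSc : IsCompact S := isCompact_Icc.of_isClosed_subset hScl hSb
  have hSn : S.Nonempty := ⟨0, le_refl 0, by simpa using hp⟩
  obtain ⟨τ, hτS, hτ⟩ := hSc.exists_isGreatest hSn
  obtain ⟨M, hM0, hM⟩ := hM
  have hMS : M⁻¹ ∈ S := by
    refine ⟨(inv_pos.mpr hM0).le, ?_⟩
    have h1 := h.cl_smul hM (inv_pos.mpr hM0).le
    rw [smul_sub, smul_smul, inv_mul_cancel₀ hM0.ne', one_smul] at h1
    exact h1
  refine ⟨τ, lt_of_lt_of_le (inv_pos.mpr hM0) (hτ hMS), hτS.2, ?_⟩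
  intro t ht
  rcases le_or_gt 0 t with h0 | h0
  · exact hτ ⟨h0, ht⟩
  · exact le_trans h0.le hτS.1

/-- a unit of the line of a vertex is a positive multiple of the vertex -/
theorem pos_mult {C : Set (V n)} (h : PCone C) {w : V n} (hw0 : w ≠ 0) (hw : w ∈ closure C)
    {c : ℝ} (hc : c • w ∈ closure C) (hc0 : c • w ≠ 0) : 0 < c := by
  rcases lt_trichotomy c 0 with h1 | h1 | h1
  · exfalso
    apply hw0
    apply h.salient _ hw
    have h2 := h.cl_smul hc (t := (-c)⁻¹) (inv_nonneg.mpr (by linarith))
    rw [smul_smul] at h2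
    have h3 : (-c)⁻¹ * c = -1 := by
      rw [inv_neg, neg_mul, inv_mul_cancel₀ h1.ne]
    rw [h3, neg_one_smul] at h2
    exact h2
  · exfalso; apply hc0; rw [h1, zero_smul]
  · exact h1

/-- the construction in one factor -/
theorem fibre {C : Set (V n)} {Γ : Subgroup (GL (Fin n) ℝ)} (h : CC C Γ) {K : ℕ} (hK : 3 ≤ K)
    {L : Fin K → Submodule ℝ (V n)} {w : Fin K → V n} {β : Fin K → Fin K}
    (hb : Box C Γ L w β) (HB : BfaStmt) (HU : UnfStmt)
    (H4 : ∀ i j, i ≠ j → β i = β j → ¬ Unt C (L (β i)) (w i))
    (H5 : ∀ j, ¬ Unt C (L (β j)) 0) (a : Fin K) (p : V n) (hp : Unt C (L a) p) :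
    ∃ v : Fin K → V n, (∀ i, β i = a → v i ∈ L a) ∧ (∀ i, β i = a → v i ∈ LamC C Γ) ∧
      (∀ i, β i = a → (∀ j, β j = a → j = i) → ∃ c : ℝ, c ≠ 0 ∧ v i = c • w i) ∧
      (∀ i j, i ≠ j → β i = a → β j = a → ¬ Unt C (L a) (v i)) ∧
      ∑ i ∈ Finset.univ.filter (fun i => β i = a), v i = p := by
  classical
  have hP : PCone C := h.toPCone
  have hH := h.hul
  have hwcl : ∀ i, w i ∈ closure C := fun i => hb.pes.1.cl i
  have hw0 : ∀ i, w i ≠ 0 := fun i => hH.lamNe _ (hb.pes.2 i)
  by_cases hE : ∃ i, β i = a
  · obtain ⟨i, hi⟩ := hE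
    have hp0 : p ≠ 0 := by
      intro h0
      apply H5 i
      rw [hi, ← h0]; exact hp
    by_cases hS : ∀ j, β j = a → j = i
    · -- one vertex
      obtain ⟨c, hc⟩ := hb.one i (fun j hj => hS j (hj.trans hi)) p (hi ▸ hp.1)
      have hcpos : 0 < c := pos_mult hP (hw0 i) (hwcl i) (hc ▸ hp.2.1) (hc ▸ hp0)
      refine ⟨fun _ => p, fun _ _ => hp.1, fun _ _ => ?_, ?_, ?_, ?_⟩
      · rw [hc]; exact hH.lamSmul _ (hb.pes.2 i) c hcpos
      · intro i' hi' _
        have : i' = i := hS i' hi'
        rw [this]
        exact ⟨c, hcpos.ne', hc⟩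
      · intro i' j' hij h1 h2
        exact absurd ((hS i' h1).trans (hS j' h2).symm) hij
      · have : Finset.univ.filter (fun i => β i = a) = {i} := by
          ext j
          simp only [Finset.mem_filter, Finset.mem_univ, true_and, Finset.mem_singleton]
          exact ⟨hS j, fun hj => hj ▸ hi⟩
        rw [this, Finset.sum_singleton]
    · -- two vertices
      push Not at hS
      obtain ⟨j, hj, hji⟩ := hS
      have hfib : Finset.univ.filter (fun i => β i = a) = {i, j} := by
        ext l
        simp only [Finset.mem_filter, Finset.mem_univ, true_and, Finset.mem_insert,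
          Finset.mem_singleton]
        constructor
        · intro hl
          rcases hb.three i j l (hi.trans hj.symm) (hj.trans hl.symm) with h1 | h1 | h1
          · exact absurd h1.symm hji
          · exact Or.inr h1.symm
          · exact Or.inl h1.symm
        · rintro (h1 | h1)
          · rw [h1]; exact hi
          · rw [h1]; exact hj
      have hwiL : w i ∈ L a := hi ▸ hb.mem i
      have hnu : ¬ Unt C (L a) (w i) := by
        have := H4 i j (Ne.symm hji) (hi.trans hj.symm)
        rwa [hi] at this
      obtain ⟨τ, hτ0, hτcl, hτmax⟩ := exists_tau hP (hw0 i) (hwcl i) (hp.2.2 _ hwiL) hp.2.1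
      have hU := HU n C hP (L a)
      have hnu1 : ¬ Unt C (L a) (τ • w i) := by
        intro hu
        have h1 := (hU _ hu).1 τ⁻¹ (inv_pos.mpr hτ0)
        rw [smul_smul, inv_mul_cancel₀ hτ0.ne', one_smul] at h1
        exact hnu h1
      have hnu2 : ¬ Unt C (L a) (p - τ • w i) := by
        intro hu
        obtain ⟨ε, hε, hu2⟩ := (hU _ hu).2.2.2.1 (w i) hwiL
        have h1 := hu2.2.1
        have h2 : p - τ • w i - ε • w i = p - (τ + ε) • w i := by rw [add_smul]; abel
        rw [h2] at h1
        have := hτmax _ h1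
        linarith
      have hne : p - τ • w i ≠ 0 := by
        intro h0
        apply hnu1
        rw [← sub_eq_zero.mp h0]; exact hp
      -- the unit `u`
      have hu : Unt C (L a) (w i + w j) := by
        have := (HB n C Γ hP K L w β hb).2.2.1 a
        rw [hfib, Finset.sum_pair (Ne.symm hji)] at this
        exact this
      have hunC : w i + w j ∉ C := by
        have h1 := hb.pes.1.bd (fun l => if β l = a then 1 else 0)
          (fun l => by split_ifs <;> norm_num) ?_
        · have h2 : ∑ l, (if β l = a then (1 : ℝ) else 0) • w l = w i + w j := by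
            rw [← Finset.sum_pair (Ne.symm hji), ← hfib, Finset.sum_filter]
            refine Finset.sum_congr rfl fun l _ => ?_
            split_ifs <;> simp
          rwa [h2] at h1
        · by_contra hcon
          push Not at hcon
          have hall : ∀ l, β l = a := by
            intro l
            by_contra hl
            exact hcon l (by simp [hl])
          have hcard : (Finset.univ.filter (fun i => β i = a)).card = K := by
            rw [Finset.filter_true_of_mem (fun l _ => hall l)]; simp
          rw [hfib, Finset.card_pair (Ne.symm hji)] at hcard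
          omega
      have huH : w i + w j ∈ Hull C Γ :=
        hH.add _ (hH.lamHull _ (hb.pes.2 i)) _ (hH.lamHull _ (hb.pes.2 j))
      have hu0 : w i + w j ≠ 0 := by
        intro h0
        apply H5 i
        rw [hi, ← h0]; exact hu
      have huL : w i + w j ∈ LamC C Γ :=
        H37.cloF n C Γ h (fun _ => w i + w j) _ (fun _ => huH) tendsto_const_nhds hunC hu0
      obtain ⟨M, hM0, hM⟩ := hu.2.2 p hp.1
      have hlam2 : p - τ • w i ∈ LamC C Γ := by
        refine H37.flmF n C Γ h (M • (w i + w j)) (hH.lamSmul _ huL M hM0) _ hτcl hne ?_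
        have h1 : M • (w i + w j) - (p - τ • w i) = (M • (w i + w j) - p) + τ • w i := by abel
        rw [h1]
        exact hP.cl_add hM (hP.cl_smul (hwcl i) hτ0.le)
      have hlam1 : τ • w i ∈ LamC C Γ := hH.lamSmul _ (hb.pes.2 i) τ hτ0
      have hmemij : ∀ l, β l = a → l = i ∨ l = j := by
        intro l hl
        have : l ∈ Finset.univ.filter (fun i => β i = a) := by simp [hl]
        rw [hfib] at this
        simpa using this
      refine ⟨fun l => if l = i then τ • w i else p - τ • w i, ?_, ?_, ?_, ?_, ?_⟩
      · intro l _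
        simp only
        split_ifs
        · exact (L a).smul_mem _ hwiL
        · exact (L a).sub_mem hp.1 ((L a).smul_mem _ hwiL)
      · intro l _
        simp only
        split_ifs
        · exact hlam1
        · exact hlam2
      · intro l hl hS
        exfalso
        exact hji ((hS j hj).trans (hS i hi).symm)
      · intro l l' _ _ _
        simp only
        split_ifs
        · exact hnu1
        · exact hnu2
      · rw [hfib, Finset.sum_pair (Ne.symm hji)]
        simp only [if_true, if_neg hji]
        abel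
  · -- empty fibre
    push Not at hE
    have hbot : L a = ⊥ := hb.bot a hE
    have hp0 : p = 0 := by
      have := hp.1
      rw [hbot, Submodule.mem_bot] at this
      exact this
    refine ⟨fun _ => 0, fun i hi => absurd hi (hE i), fun i hi => absurd hi (hE i),
      fun i hi => absurd hi (hE i), fun i j _ hi => absurd hi (hE i), ?_⟩
    rw [hp0]; simp

/-- **Row PRB** -/
theorem prb (HB : BfaStmt) (HU : UnfStmt) (HE : ExtStmt) : PrbStmt := by
  classical
  intro n C Γ h K hK L w β hb hfull hstr p hpW hpC
  have hP : PCone C := h.toPCone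
  have hH := h.hul
  have hwcl : ∀ i, w i ∈ closure C := fun i => hb.pes.1.cl i
  have hw0 : ∀ i, w i ≠ 0 := fun i => hH.lamNe _ (hb.pes.2 i)
  obtain ⟨B1, B2, B3, B4, B5, B6⟩ := HB n C Γ hP K L w β hb
  obtain ⟨E1, E2, E3, E4, E5⟩ := HE n C Γ hP K hK L w β hb hwcl hfull hstr
  obtain ⟨y, hyL, hysum⟩ := B4 p hpW
  have hyU : ∀ a, Unt C (L a) (y a) := (B2 y hyL).mp (hysum ▸ hpC)
  choose v hvL hvlam hvone hvnu hvsum using
    fun a => fibre h hK hb HB HU E4 E5 a (y a) (hyU a)
  refine ⟨fun i => v (β i) i, ?_, ?_⟩
  · -- Box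
    have hlam : ∀ i, v (β i) i ∈ LamC C Γ := fun i => hvlam (β i) i rfl
    have hsumC : ∑ i, v (β i) i ∈ C := by
      have h1 : ∑ i, v (β i) i = ∑ a, ∑ i ∈ Finset.univ.filter (fun i => β i = a), v (β i) i :=
        (Finset.sum_fiberwise Finset.univ β (fun i => v (β i) i)).symm
      have h2 : ∀ a, ∑ i ∈ Finset.univ.filter (fun i => β i = a), v (β i) i = y a := by
        intro a
        rw [← hvsum a]
        refine Finset.sum_congr rfl fun i hi => ?_
        rw [(Finset.mem_filter.mp hi).2]
      rw [h1, Finset.sum_congr rfl fun a _ => h2 a, hysum]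
      exact hpC
    refine
      { pes := ⟨?_, hlam⟩
        mem := fun i => hvL (β i) i rfl
        comp := hb.comp
        bot := hb.bot
        one := ?_
        two := hb.two
        three := hb.three }
    · refine H60.crt n C hP (Fin K) _ (fun i => hH.lamCl _ (hlam i)) hsumC ?_
      intro i hi
      -- fibre sums with `i` omitted
      have h1 : ∑ j ∈ Finset.univ.erase i, v (β j) j =
          ∑ a, ∑ j ∈ (Finset.univ.erase i).filter (fun j => β j = a), v (β j) j :=
        (Finset.sum_fiberwise (Finset.univ.erase i) β (fun j => v (β j) j)).symm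
      rw [h1] at hi
      have hmem : ∀ a, ∑ j ∈ (Finset.univ.erase i).filter (fun j => β j = a), v (β j) j ∈ L a := by
        intro a
        refine Submodule.sum_mem _ fun j hj => ?_
        have := (Finset.mem_filter.mp hj).2
        rw [this]
        exact hvL a j this
      have hun := (B2 _ hmem).mp hi (β i)
      by_cases hS : ∀ j, β j = β i → j = i
      · have he : (Finset.univ.erase i).filter (fun j => β j = β i) = ∅ := by
          ext j
          simp only [Finset.mem_filter, Finset.mem_erase, Finset.mem_univ, and_true,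
            Finset.notMem_empty, iff_false, not_and]
          intro hj hj2
          exact hj (hS j hj2)
        rw [he, Finset.sum_empty] at hun
        exact E5 i hun
      · push Not at hS
        obtain ⟨j, hj, hji⟩ := hS
        have he : (Finset.univ.erase i).filter (fun j => β j = β i) = {j} := by
          ext l
          simp only [Finset.mem_filter, Finset.mem_erase, Finset.mem_univ, and_true,
            Finset.mem_singleton]
          constructor
          · rintro ⟨hl, hl2⟩
            rcases hb.three i j l hj.symm (hj.trans hl2.symm) with h2 | h2 | h2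
            · exact absurd h2.symm hji
            · exact h2.symm
            · exact absurd h2.symm hl
          · rintro rfl
            exact ⟨hji, hj⟩
        rw [he, Finset.sum_singleton, hj] at hun
        exact hvnu (β i) j i hji hj rfl hun
    · intro i hi x hx
      obtain ⟨c, hc, hci⟩ := hvone (β i) i rfl hi
      obtain ⟨d, hd⟩ := hb.one i hi x hx
      refine ⟨d * c⁻¹, ?_⟩
      simp only [hci]
      rw [hd, smul_smul, mul_assoc, inv_mul_cancel₀ hc, mul_one]
  · have h1 : ∑ i, v (β i) i = ∑ a, ∑ i ∈ Finset.univ.filter (fun i => β i = a), v (β i) i :=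
      (Finset.sum_fiberwise Finset.univ β (fun i => v (β i) i)).symm
    have h2 : ∀ a, ∑ i ∈ Finset.univ.filter (fun i => β i = a), v (β i) i = y a := by
      intro a
      rw [← hvsum a]
      refine Finset.sum_congr rfl fun i hi => ?_
      rw [(Finset.mem_filter.mp hi).2]
    rw [h1, Finset.sum_congr rfl fun a _ => h2 a, hysum]

end Pool.Agent.PFJ.H25
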